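import Mathlib

-- merged part: Pool.Agent.Work.MP_15a5ff_al.NoCompactOpen
section
/-!
A second countable Hausdorff abelian group carrying a real vector space structure in which each
single scalar acts continuously has no compact open subgroup, unless it is trivial.
-/

set_option autoImplicit false

open Set Topology Filter

namespace Pool.Agent.Work.MP_15a5ff_al

section Index

variable {Y : Type*} [AddCommGroup Y] [Module ℝ Y]

/-- the subgroup `r • M` -/
def sc (r : ℝ) (M : AddSubgroup Y) : AddSubgroup Y :=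
  M.map (DistribSMul.toAddMonoidHom Y r)

lemma mem_sc {r : ℝ} {M : AddSubgroup Y} {y : Y} : y ∈ sc r M ↔ ∃ x ∈ M, r • x = y := by
  simp [sc, AddSubgroup.mem_map]

lemma sc_sc (r s : ℝ) (M : AddSubgroup Y) : sc r (sc s M) = sc (r * s) M := by
  ext y
  simp only [mem_sc]
  constructor
  · rintro ⟨x, ⟨z, hz, rfl⟩, rfl⟩
    exact ⟨z, hz, by rw [mul_smul]⟩
  · rintro ⟨z, hz, rfl⟩
    exact ⟨s • z, ⟨z, hz, rfl⟩, by rw [mul_smul]⟩

lemma sc_one (M : AddSubgroup Y) : sc 1 M = M := by
  ext y
  simp [mem_sc]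

lemma sc_mono (r : ℝ) {M N : AddSubgroup Y} (h : M ≤ N) : sc r M ≤ sc r N :=
  AddSubgroup.map_mono h

lemma relIndex_sc {r : ℝ} (hr : r ≠ 0) (M N : AddSubgroup Y) :
    (sc r M).relIndex (sc r N) = M.relIndex N := by
  apply AddSubgroup.relIndex_map_map_of_injective
  intro x y hxy
  simp only [DistribSMul.toAddMonoidHom_apply] at hxy
  exact smul_right_injective Y hr hxy

lemma relIndex_sc_pow {t : ℝ} (ht : t ≠ 0) (N : AddSubgroup Y) (hN : sc t N ≤ N) (n : ℕ) :
    sc (t ^ n) N ≤ N ∧ (sc (t ^ n) N).relIndex N = ((sc t N).relIndex N) ^ n := by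
  induction n with
  | zero => simp [sc_one]
  | succ n ih =>
    have h1 : sc (t ^ (n + 1)) N = sc t (sc (t ^ n) N) := by rw [sc_sc, pow_succ']
    have h2 : sc t (sc (t ^ n) N) ≤ sc t N := sc_mono t ih.1
    refine ⟨h1 ▸ h2.trans hN, ?_⟩
    rw [h1, ← AddSubgroup.relIndex_mul_relIndex _ _ _ h2 hN, relIndex_sc ht, ih.2, pow_succ]

lemma index_eq_pow {t : ℝ} (ht : t ≠ 0) (n : ℕ) (M N : AddSubgroup Y) (hNM : N ≤ M)
    (hfin : N.relIndex M ≠ 0) (hN : sc t N ≤ N) (hM : sc (t ^ n) M ≤ M) :
    (sc (t ^ n) M).relIndex M = ((sc t N).relIndex N) ^ n := by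
  obtain ⟨h1, h2⟩ := relIndex_sc_pow ht N hN n
  have e1 := AddSubgroup.relIndex_mul_relIndex _ _ _ h1 hNM
  have e2 := AddSubgroup.relIndex_mul_relIndex _ _ _ (sc_mono (t ^ n) hNM) hM
  rw [relIndex_sc (pow_ne_zero n ht)] at e2
  rw [← h2]
  apply Nat.eq_of_mul_eq_mul_left (Nat.pos_of_ne_zero hfin)
  rw [e2, ← e1, mul_comm]

end Index

section Top

variable {Y : Type*} [AddCommGroup Y] [Module ℝ Y] [TopologicalSpace Y] [IsTopologicalAddGroup Y]
  [ContinuousConstSMul ℝ Y]

omit [IsTopologicalAddGroup Y] in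
lemma isOpen_sc {r : ℝ} (hr : r ≠ 0) {M : AddSubgroup Y} (hM : IsOpen (M : Set Y)) :
    IsOpen (sc r M : Set Y) := by
  have : (sc r M : Set Y) = (fun y => r⁻¹ • y) ⁻¹' (M : Set Y) := by
    ext y
    simp only [SetLike.mem_coe, mem_sc, mem_preimage]
    constructor
    · rintro ⟨x, hx, rfl⟩
      rwa [smul_smul, inv_mul_cancel₀ hr, one_smul]
    · intro h
      exact ⟨_, h, by rw [smul_smul, mul_inv_cancel₀ hr, one_smul]⟩
  rw [this]
  exact hM.preimage (continuous_const_smul _)

omit [Module ℝ Y] [ContinuousConstSMul ℝ Y] in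
lemma relIndex_ne_zero_of_isOpen {M N : AddSubgroup Y} (hM : IsCompact (M : Set Y))
    (hN : IsOpen (N : Set Y)) : N.relIndex M ≠ 0 := by
  have : CompactSpace M := isCompact_iff_compactSpace.mp hM
  have hopen : IsOpen ((N.addSubgroupOf M : AddSubgroup M) : Set M) :=
    hN.preimage continuous_subtype_val
  have := AddSubgroup.quotient_finite_of_isOpen _ hopen
  exact AddSubgroup.index_ne_zero_of_finite

/-- a positive scalar mapping a compact open subgroup into itself maps it onto itself -/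
lemma sc_eq_of_le {d : ℝ} (hd : 0 < d) {M : AddSubgroup Y} (hMc : IsCompact (M : Set Y))
    (hMo : IsOpen (M : Set Y)) (hle : sc d M ≤ M) : M ≤ sc d M := by
  set k := (sc d M).relIndex M with hk
  have hk0 : k ≠ 0 := relIndex_ne_zero_of_isOpen hMc (isOpen_sc hd.ne' hMo)
  set t : ℝ := d ^ ((k : ℝ)⁻¹) with ht
  have htpos : 0 < t := Real.rpow_pos_of_pos hd _
  have htk : t ^ k = d := by
    rw [ht]
    exact Real.rpow_inv_natCast_pow hd.le hk0
  set N : AddSubgroup Y := ⨅ j : Fin k, sc (t ^ (j : ℕ)) M with hN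
  have hNo : IsOpen (N : Set Y) := by
    rw [hN, AddSubgroup.coe_iInf]
    exact isOpen_iInter_of_finite fun j => isOpen_sc (pow_ne_zero _ htpos.ne') hMo
  have hNM : N ≤ M := by
    refine (iInf_le _ (⟨0, Nat.pos_of_ne_zero hk0⟩ : Fin k)).trans ?_
    simp [sc_one]
  have hNj : ∀ j : ℕ, j < k → N ≤ sc (t ^ j) M := fun j hj => iInf_le_of_le ⟨j, hj⟩ le_rfl
  have htN : sc t N ≤ N := by
    refine le_iInf fun j => ?_
    rcases j with ⟨j, hj⟩
    rcases j with _ | j
    · have h1 : sc t N ≤ sc t (sc (t ^ (k - 1)) M) := sc_mono t (hNj (k - 1) (by omega))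
      rw [sc_sc, ← pow_succ', Nat.sub_add_cancel (Nat.pos_of_ne_zero hk0), htk] at h1
      simpa [sc_one] using h1.trans hle
    · have h1 : sc t N ≤ sc t (sc (t ^ j) M) := sc_mono t (hNj j (by omega))
      rwa [sc_sc, ← pow_succ'] at h1
  have key := index_eq_pow htpos.ne' k M N hNM (relIndex_ne_zero_of_isOpen hMc hNo) htN
    (htk ▸ hle)
  rw [htk, ← hk] at key
  have hk1 : k = 1 := by
    set h := (sc t N).relIndex N
    rcases Nat.lt_or_ge h 2 with hh | hh
    · interval_cases h
      · rw [zero_pow hk0] at key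
        exact absurd key hk0
      · simpa using key
    · have := Nat.lt_pow_self (n := k) (lt_of_lt_of_le one_lt_two hh)
      omega
  exact AddSubgroup.relIndex_eq_one.mp hk1

theorem no_compact_open [T2Space Y] [SecondCountableTopology Y] [Nontrivial Y]
    (M : AddSubgroup Y) (hMc : IsCompact (M : Set Y)) (hMo : IsOpen (M : Set Y)) : False := by
  obtain ⟨y0, hy0⟩ := exists_ne (0 : Y)
  -- M is not trivial
  obtain ⟨y1, hy1M, hy1⟩ : ∃ y1 ∈ M, y1 ≠ 0 := by
    by_contra hcon
    push Not at hcon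
    have h0 : (M : Set Y) = {0} := by
      ext y
      simp only [SetLike.mem_coe, mem_singleton_iff]
      exact ⟨hcon y, fun h => h ▸ M.zero_mem⟩
    rw [h0] at hMo
    have : DiscreteTopology Y := discreteTopology_of_isOpen_singleton_zero hMo
    have : Countable Y := TopologicalSpace.separableSpace_iff_countable.mp inferInstance
    have hinj : Function.Injective fun r : ℝ => r • y0 := smul_left_injective ℝ hy0
    have : Countable ℝ := hinj.countable
    exact Cardinal.not_countable_real (countable_univ)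
  have : CompactSpace M := isCompact_iff_compactSpace.mp hMc
  have : LocallyCompactSpace M := inferInstance
  have : SecondCountableTopology M :=
    (inferInstance : SecondCountableTopology (M : Set Y))
  set U : Set Y := (M : Set Y) \ {y1} with hU
  have hUo : IsOpen U := hMo.sdiff isClosed_singleton
  have hU0 : (0 : Y) ∈ U := ⟨M.zero_mem, fun h => hy1 (mem_singleton_iff.mp h).symm⟩
  let φ : ℝ → C(M, Y) := fun r => ⟨fun y => r • (y : Y), by fun_prop⟩
  let O : ℝ → Set C(M, Y) := fun r => (fun f => f - φ r) ⁻¹' {f | MapsTo f univ U}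
  have hO : ∀ r, IsOpen (O r) := fun r =>
    (ContinuousMap.isOpen_setOfPred_mapsTo isCompact_univ hUo).preimage (by fun_prop)
  obtain ⟨T, hTc, hT⟩ := TopologicalSpace.isOpen_iUnion_countable O hO
  obtain ⟨s, hs⟩ : ∃ s : ℝ, s ∉ T := by
    by_contra hcon
    push Not at hcon
    exact Cardinal.not_countable_real (hTc.mono fun x _ => hcon x)
  have hsO : φ s ∈ ⋃ r, O r := mem_iUnion.mpr ⟨s, fun y _ => by simpa using hU0⟩
  rw [← hT] at hsO
  obtain ⟨r, hrT, hr⟩ := mem_iUnion₂.mp hsO
  have hrs : s - r ≠ 0 := sub_ne_zero.mpr fun h => hs (h ▸ hrT)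
  have hmaps : ∀ y ∈ M, (s - r) • y ∈ U := fun y hy => by
    have := hr (mem_univ (⟨y, hy⟩ : M))
    simpa [φ, sub_smul] using this
  have hmaps' : ∀ y ∈ M, |s - r| • y ∈ U := fun y hy => by
    rcases abs_choice (s - r) with h | h
    · rw [h]; exact hmaps y hy
    · rw [h, neg_smul, ← smul_neg]; exact hmaps _ (M.neg_mem hy)
  have hle : sc |s - r| M ≤ M := by
    intro y hy
    obtain ⟨x, hx, rfl⟩ := mem_sc.mp hy
    exact (hmaps' x hx).1
  obtain ⟨x, hx, hxy⟩ := mem_sc.mp (sc_eq_of_le (abs_pos.mpr hrs) hMc hMo hle hy1M)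
  exact (hmaps' x hx).2 (mem_singleton_iff.mpr hxy)

end Top

end Pool.Agent.Work.MP_15a5ff_al
end

-- merged part: Pool.Agent.Work.MP_15a5ff_al.Growth
section
/-!
Growth comparison: a compact neighbourhood `W` of zero with `W + W` covered by `C` translates
of `W` has polynomial growth of degree at most `C`, while `m` independent directions force
growth at least of degree `m`.
-/

set_option autoImplicit false

open Set Topology Filter

namespace Pool.Agent.Work.MP_15a5ff_al

section Balls

variable {Y : Type*} [AddCommGroup Y]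

/-- sums of `n` elements of `A` -/
def ball (A : Set Y) : ℕ → Set Y
  | 0 => {0}
  | n + 1 => Set.image2 (· + ·) (ball A n) A

lemma mem_ball_zero {A : Set Y} {x : Y} : x ∈ ball A 0 ↔ x = 0 := Iff.rfl

lemma mem_ball_succ {A : Set Y} {n : ℕ} {x : Y} :
    x ∈ ball A (n + 1) ↔ ∃ y ∈ ball A n, ∃ a ∈ A, y + a = x := Iff.rfl

lemma add_mem_ball {A : Set Y} {a b : ℕ} {x y : Y} (hx : x ∈ ball A a) (hy : y ∈ ball A b) :
    x + y ∈ ball A (a + b) := by
  induction b generalizing y with
  | zero =>
    rw [mem_ball_zero.mp hy]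
    simpa using hx
  | succ b ih =>
    obtain ⟨z, hz, c, hc, rfl⟩ := mem_ball_succ.mp hy
    exact mem_ball_succ.mpr ⟨x + z, ih hz, c, hc, by abel⟩

lemma neg_mem_ball {A : Set Y} (hA : ∀ a ∈ A, -a ∈ A) {n : ℕ} {x : Y} (hx : x ∈ ball A n) :
    -x ∈ ball A n := by
  induction n generalizing x with
  | zero =>
    rw [mem_ball_zero.mp hx, neg_zero]
    exact mem_ball_zero.mpr rfl
  | succ n ih =>
    obtain ⟨z, hz, c, hc, rfl⟩ := mem_ball_succ.mp hx
    exact mem_ball_succ.mpr ⟨-z, ih hz, -c, hA c hc, by abel⟩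

lemma ball_mono {A : Set Y} (h0 : (0 : Y) ∈ A) {a b : ℕ} (hab : a ≤ b) : ball A a ⊆ ball A b := by
  induction hab with
  | refl => exact subset_rfl
  | step _ ih => exact fun x hx => mem_ball_succ.mpr ⟨x, ih hx, 0, h0, add_zero x⟩

lemma map_mem_ball {Z : Type*} [AddCommGroup Z] (f : Y →+ Z) {A : Set Y} {B : Set Z}
    (h : ∀ a ∈ A, f a ∈ B) {n : ℕ} {x : Y} (hx : x ∈ ball A n) : f x ∈ ball B n := by
  induction n generalizing x with
  | zero =>
    rw [mem_ball_zero.mp hx, map_zero]
    exact mem_ball_zero.mpr rfl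
  | succ n ih =>
    obtain ⟨z, hz, c, hc, rfl⟩ := mem_ball_succ.mp hx
    exact mem_ball_succ.mpr ⟨f z, ih hz, f c, h c hc, (map_add f z c).symm⟩

lemma sum_mem_ball {A : Set Y} {ι : Type*} (s : Finset ι) (x : ι → Y) (a : ι → ℕ)
    (h : ∀ i ∈ s, x i ∈ ball A (a i)) : ∑ i ∈ s, x i ∈ ball A (∑ i ∈ s, a i) := by
  classical
  induction s using Finset.induction_on with
  | empty => exact mem_ball_zero.mpr (by simp)
  | insert i s hi ih =>
    rw [Finset.sum_insert hi, Finset.sum_insert hi]
    exact add_mem_ball (h i (Finset.mem_insert_self _ _))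
      (ih fun j hj => h j (Finset.mem_insert_of_mem hj))

/-- polynomial growth: the ball of radius `n` is covered by `(n+1)^C` translates of `W` -/
lemma ball_cover {W : Set Y} (h0 : (0 : Y) ∈ W) {C : ℕ} (g : Fin C → Y)
    (hW : ∀ a ∈ W, ∀ b ∈ W, ∃ j, ∃ w ∈ W, a + b = g j + w) (n : ℕ) {x : Y} (hx : x ∈ ball W n) :
    ∃ k : Fin C → ℕ, (∀ j, k j ≤ n) ∧ ∃ w ∈ W, x = ∑ j, k j • g j + w := by
  induction n generalizing x with
  | zero => exact ⟨0, fun _ => le_rfl, 0, h0, by simpa using mem_ball_zero.mp hx⟩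
  | succ n ih =>
    obtain ⟨z, hz, c, hc, rfl⟩ := mem_ball_succ.mp hx
    obtain ⟨k, hk, w, hw, rfl⟩ := ih hz
    obtain ⟨j, w', hw', hj⟩ := hW w hw c hc
    refine ⟨k + Pi.single j 1, fun i => ?_, w', hw', ?_⟩
    · have := hk i
      by_cases hij : i = j
      · subst hij
        simp only [Pi.add_apply, Pi.single_eq_same]
        omega
      · simp only [Pi.add_apply, Pi.single_eq_of_ne hij]
        omega
    · simp only [Pi.add_apply, add_smul, Finset.sum_add_distrib]
      have : ∑ i, (Pi.single j 1 : Fin C → ℕ) i • g i = g j := by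
        rw [Finset.sum_eq_single j]
        · simp
        · intro i _ hij
          simp [Pi.single_eq_of_ne hij]
        · simp
      rw [this, add_assoc, hj, add_assoc]

variable [TopologicalSpace Y] [IsTopologicalAddGroup Y]

lemma isCompact_ball {A : Set Y} (hA : IsCompact A) (n : ℕ) : IsCompact (ball A n) := by
  induction n with
  | zero => exact isCompact_singleton
  | succ n ih =>
    have : ball A (n + 1) = (fun p : Y × Y => p.1 + p.2) '' (ball A n ×ˢ A) := by
      ext x
      simp only [mem_ball_succ, mem_image, mem_prod, Prod.exists]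
      constructor
      · rintro ⟨y, hy, a, ha, rfl⟩
        exact ⟨y, a, ⟨hy, ha⟩, rfl⟩
      · rintro ⟨y, a, ⟨hy, ha⟩, rfl⟩
        exact ⟨y, hy, a, ha, rfl⟩
    rw [this]
    exact (ih.prod hA).image (by fun_prop)

lemma ball_succ_mem_nhds {A : Set Y} (hA : A ∈ 𝓝 (0 : Y)) {n : ℕ} {x : Y} (hx : x ∈ ball A n) :
    ball A (n + 1) ∈ 𝓝 x := by
  have h : (fun y => y - x) ⁻¹' A ∈ 𝓝 x := by
    apply ContinuousAt.preimage_mem_nhds (by fun_prop)
    simpa using hA
  refine mem_of_superset h fun y hy => mem_ball_succ.mpr ⟨x, hx, y - x, hy, by abel⟩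

end Balls

section Spread

variable {Y : Type*} [AddCommGroup Y] [Module ℝ Y] [TopologicalSpace Y] [IsTopologicalAddGroup Y]
  [ContinuousConstSMul ℝ Y] [T2Space Y] [SecondCountableTopology Y]

/-- linearly many `K`-separated points in the balls -/
theorem exists_spread [Nontrivial Y] {A K : Set Y} (hAc : IsCompact A) (hA : A ∈ 𝓝 (0 : Y))
    (hAs : ∀ a ∈ A, -a ∈ A) (hK : IsCompact K) :
    ∃ (c : ℕ) (y : ℕ → Y), (∀ j, y j ∈ ball A (c * (j + 1))) ∧
      ∀ j j', y j - y j' ∈ K → j = j' := by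
  have h0 : (0 : Y) ∈ A := mem_of_mem_nhds hA
  let M : AddSubgroup Y :=
    { carrier := ⋃ n, ball A n
      zero_mem' := mem_iUnion.mpr ⟨0, mem_ball_zero.mpr rfl⟩
      add_mem' := by
        intro a b ha hb
        obtain ⟨i, hi⟩ := mem_iUnion.mp ha
        obtain ⟨j, hj⟩ := mem_iUnion.mp hb
        exact mem_iUnion.mpr ⟨i + j, add_mem_ball hi hj⟩
      neg_mem' := by
        intro a ha
        obtain ⟨i, hi⟩ := mem_iUnion.mp ha
        exact mem_iUnion.mpr ⟨i, neg_mem_ball hAs hi⟩ }
  have hmemM : ∀ x, x ∈ M ↔ ∃ n, x ∈ ball A n := fun x => mem_iUnion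
  have hMo : IsOpen (M : Set Y) := by
    rw [isOpen_iff_mem_nhds]
    intro x hx
    obtain ⟨n, hn⟩ := (hmemM x).mp hx
    exact mem_of_superset (ball_succ_mem_nhds hA hn) fun y hy => (hmemM y).mpr ⟨_, hy⟩
  have hMcl : IsClosed (M : Set Y) := M.isClosed_of_isOpen hMo
  -- the balls grow strictly
  have hgrow : ∀ n, ∃ y ∈ ball A (n + 1), y ∉ ball A n := by
    intro n
    by_contra hcon
    push Not at hcon
    have hall : ∀ k, ball A (n + k) ⊆ ball A n := by
      intro k
      induction k with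
      | zero => exact subset_rfl
      | succ k ih =>
        intro x hx
        obtain ⟨z, hz, a, ha, rfl⟩ := mem_ball_succ.mp hx
        exact hcon _ (mem_ball_succ.mpr ⟨z, ih hz, a, ha, rfl⟩)
    have hM : (M : Set Y) = ball A n := by
      ext x
      constructor
      · intro hx
        obtain ⟨k, hk⟩ := (hmemM x).mp hx
        exact hall k (ball_mono h0 (by omega) hk)
      · intro hx
        exact (hmemM x).mpr ⟨n, hx⟩
    exact no_compact_open M (hM ▸ isCompact_ball hAc n) hMo
  -- `K ∩ M` lies in one ball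
  obtain ⟨c, hc⟩ : ∃ c, K ∩ (M : Set Y) ⊆ ball A c := by
    have hKM : IsCompact (K ∩ (M : Set Y)) := hK.inter_right hMcl
    obtain ⟨c, hc⟩ := hKM.elim_directed_cover (fun n => interior (ball A n))
      (fun _ => isOpen_interior) (by
        intro x hx
        obtain ⟨n, hn⟩ := (hmemM x).mp hx.2
        exact mem_iUnion.mpr ⟨n + 1, mem_interior_iff_mem_nhds.mpr (ball_succ_mem_nhds hA hn)⟩)
      (Monotone.directed_le fun a b hab => interior_mono (ball_mono h0 hab))
    exact ⟨c, hc.trans interior_subset⟩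
  choose y hy hy' using fun j : ℕ => hgrow ((c + 1) * j)
  have hyM : ∀ j, y j ∈ M := fun j => (hmemM _).mpr ⟨_, hy j⟩
  have key : ∀ j j', j' < j → y j - y j' ∉ ball A c := by
    intro j j' hlt hmem
    have h1 := add_mem_ball (hy j') hmem
    rw [add_sub_cancel] at h1
    refine hy' j (ball_mono h0 ?_ h1)
    have : (c + 1) * (j' + 1) ≤ (c + 1) * j := Nat.mul_le_mul_left _ hlt
    nlinarith
  refine ⟨c + 1, y, fun j => ball_mono h0 (by nlinarith) (hy j), fun j j' h => ?_⟩
  have h1 : y j - y j' ∈ ball A c := hc ⟨h, M.sub_mem (hyM j) (hyM j')⟩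
  rcases lt_trichotomy j j' with hlt | heq | hlt
  · exact absurd (by simpa using neg_mem_ball hAs h1) (key j' j hlt)
  · exact heq
  · exact absurd h1 (key j j' hlt)

/-- the number of independent directions is bounded by the covering constant -/
theorem card_le_cover {m C : ℕ} (e : Fin m → Y →ₗ[ℝ] Y) (he : ∀ i, Continuous (e i))
    (hee : ∀ i y, e i (e i y) = e i y) (heo : ∀ i j y, i ≠ j → e i (e j y) = 0)
    (hne : ∀ i, ∃ y, e i y ≠ 0) {W : Set Y} (hWc : IsCompact W) (hW : W ∈ 𝓝 (0 : Y))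
    (hWs : ∀ a ∈ W, -a ∈ W) (g : Fin C → Y)
    (hcov : ∀ a ∈ W, ∀ b ∈ W, ∃ j, ∃ w ∈ W, a + b = g j + w) : m ≤ C := by
  classical
  have h0 : (0 : Y) ∈ W := mem_of_mem_nhds hW
  have hD : IsCompact (ball W 2) := isCompact_ball hWc 2
  have main : ∀ i, ∃ (c : ℕ) (y : ℕ → Y), (∀ j, y j ∈ ball W (c * (j + 1))) ∧
      (∀ j, e i (y j) = y j) ∧ ∀ j j', y j - y j' ∈ e i '' ball W 2 → j = j' := by
    intro i
    let Z : Submodule ℝ Y := LinearMap.eqLocus (e i) LinearMap.id
    have hZ : IsClosed (Z : Set Y) := isClosed_eq (he i) continuous_id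
    have hemb : IsClosedEmbedding ((↑) : Z → Y) := hZ.isClosedEmbedding_subtypeVal
    have : SecondCountableTopology Z := (inferInstance : SecondCountableTopology (Z : Set Y))
    have : ContinuousConstSMul ℝ Z :=
      ⟨fun r => ((continuous_const_smul r).comp continuous_subtype_val).subtype_mk _⟩
    have : Nontrivial Z := by
      obtain ⟨y, hy⟩ := hne i
      exact ⟨⟨⟨e i y, hee i y⟩, 0, fun h => hy (congrArg Subtype.val h)⟩⟩
    obtain ⟨c, y, hy1, hy2⟩ := exists_spread (Y := Z) (A := (↑) ⁻¹' W)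
      (K := (↑) ⁻¹' (e i '' ball W 2)) (hemb.isCompact_preimage hWc)
      (hemb.continuous.continuousAt.preimage_mem_nhds (by simpa using hW))
      (fun a ha => hWs _ ha) (hemb.isCompact_preimage (hD.image (he i)))
    refine ⟨c, fun j => y j, fun j => ?_, fun j => (y j).2, fun j j' h => hy2 j j' h⟩
    exact map_mem_ball Z.subtype.toAddMonoidHom (fun a ha => ha) (hy1 j)
  choose c y hy1 hy2 hy3 using main
  set s : ℕ := ∑ i, c i with hs
  by_contra hlt
  push Not at hlt
  set n : ℕ := (s + 1) ^ C + 1 with hn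
  have hp : ∀ J : Fin m → Fin n, ∑ i, y i (J i) ∈ ball W (s * n) := by
    intro J
    refine ball_mono h0 ?_ (sum_mem_ball Finset.univ (fun i => y i (J i))
      (fun i => c i * (J i + 1)) fun i _ => hy1 i (J i))
    rw [hs, Finset.sum_mul]
    exact Finset.sum_le_sum fun i _ => Nat.mul_le_mul_left _ (J i).2
  choose k hk w hw hkw using fun J => ball_cover h0 g hcov (s * n) (hp J)
  let F : (Fin m → Fin n) → (Fin C → Fin (s * n + 1)) := fun J j => ⟨k J j, Nat.lt_succ_of_le (hk J j)⟩
  have hF : Function.Injective F := by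
    intro J J' hJ
    have hkk : k J = k J' := by
      funext j
      exact congrArg Fin.val (congrFun hJ j)
    have hdiff : ∑ i, y i (J i) - ∑ i, y i (J' i) ∈ ball W 2 := by
      rw [hkw J, hkw J', hkk, add_sub_add_left_eq_sub, sub_eq_add_neg]
      exact mem_ball_succ.mpr ⟨w J, mem_ball_succ.mpr ⟨0, mem_ball_zero.mpr rfl, w J, hw J,
        zero_add _⟩, -w J', hWs _ (hw J'), rfl⟩
    funext i
    apply Fin.ext
    apply hy3 i
    refine ⟨_, hdiff, ?_⟩
    have hproj : ∀ L : Fin m → Fin n, e i (∑ l, y l (L l)) = y i (L i) := by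
      intro L
      rw [map_sum, Finset.sum_eq_single i]
      · exact hy2 i _
      · intro l _ hl
        rw [← hy2 l (L l)]
        exact heo i l _ (Ne.symm hl)
      · simp
    rw [map_sub, hproj, hproj]
  have hcard := Fintype.card_le_of_injective F hF
  simp only [Fintype.card_pi, Fintype.card_fin, Finset.prod_const, Finset.card_univ] at hcard
  have hnpos : 0 < n := by omega
  have h1 : n ^ (C + 1) ≤ n ^ m := Nat.pow_le_pow_right hnpos hlt
  have h2 : (s * n + 1) ^ C ≤ ((s + 1) * n) ^ C := Nat.pow_le_pow_left (by nlinarith) C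
  have h3 : n ^ C * n ≤ n ^ C * (s + 1) ^ C := by
    calc n ^ C * n = n ^ (C + 1) := (pow_succ n C).symm
      _ ≤ ((s + 1) * n) ^ C := h1.trans (hcard.trans h2)
      _ = n ^ C * (s + 1) ^ C := by rw [mul_pow, mul_comm]
  have h4 := Nat.le_of_mul_le_mul_left h3 (pow_pos hnpos C)
  omega

end Spread

end Pool.Agent.Work.MP_15a5ff_al
end

-- merged part: Pool.Agent.Work.MP_15a5ff_al.Main
section
/-!
The `m`-th power of the real affine group embeds abstractly in a given second countable locally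
compact group only for boundedly many `m`.
-/

set_option autoImplicit false

open Set Topology Filter

namespace Pool.Agent.Work.MP_15a5ff_al

theorem card_le_of_dense {Y : Type*} [AddCommGroup Y] [TopologicalSpace Y]
    [IsTopologicalAddGroup Y] [T2Space Y] [SecondCountableTopology Y] {m C : ℕ}
    (ι : (Fin m → ℝ) →+ Y) (hinj : Function.Injective ι) (hdense : DenseRange ι)
    (hc : ∀ a : Fin m → ℝ, (∀ i, 0 < a i) →
      ∃ c : Y →+ Y, Continuous c ∧ ∀ x, c (ι x) = ι (a * x))
    {W : Set Y} (hWc : IsCompact W) (hW : W ∈ 𝓝 (0 : Y))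
    (hWs : ∀ a ∈ W, -a ∈ W) (g : Fin C → Y)
    (hcov : ∀ a ∈ W, ∀ b ∈ W, ∃ j, ∃ w ∈ W, a + b = g j + w) : m ≤ C := by
  classical
  have hρ : ∀ r : Fin m → ℝ, ∃ c : Y →+ Y, Continuous c ∧ ∀ x, c (ι x) = ι (r * x) := by
    intro r
    obtain ⟨c1, hc1, h1⟩ := hc (fun i => |r i| + 1) (fun i => by positivity)
    obtain ⟨c2, hc2, h2⟩ := hc (fun i => |r i| + 1 - r i)
      (fun i => by linarith [le_abs_self (r i)])
    refine ⟨c1 - c2, hc1.sub hc2, fun x => ?_⟩
    rw [AddMonoidHom.sub_apply, h1, h2, ← map_sub]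
    congr 1
    funext i
    simp only [Pi.sub_apply, Pi.mul_apply]
    ring
  choose ρ hρc hρ using hρ
  have hext : ∀ u v : Y → Y, Continuous u → Continuous v → (∀ x, u (ι x) = v (ι x)) →
      ∀ y, u y = v y := fun u v hu hv h y =>
    congrFun (hdense.equalizer hu hv (funext h)) y
  have hmul : ∀ r s y, ρ r (ρ s y) = ρ (r * s) y := fun r s =>
    hext _ _ ((hρc r).comp (hρc s)) (hρc _) fun x => by rw [hρ, hρ, hρ, mul_assoc]
  have hadd : ∀ r s y, ρ (r + s) y = ρ r y + ρ s y := fun r s =>
    hext _ _ (hρc _) ((hρc r).add (hρc s)) fun x => by rw [hρ, hρ, hρ, add_mul, map_add]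
  have hone : ∀ y, ρ 1 y = y :=
    hext _ _ (hρc _) continuous_id fun x => by rw [hρ, one_mul]
  have hzero : ∀ y, ρ 0 y = 0 :=
    hext _ _ (hρc _) continuous_const fun x => by rw [hρ, zero_mul, map_zero]
  let _ : Module ℝ Y :=
    { smul := fun t y => ρ (fun _ => t) y
      one_smul := hone
      mul_smul := fun s t y => (hmul (fun _ => s) (fun _ => t) y).symm
      smul_zero := fun t => map_zero _
      smul_add := fun t => map_add _
      add_smul := fun s t y => hadd (fun _ => s) (fun _ => t) y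
      zero_smul := hzero }
  have hsmul : ∀ (t : ℝ) (y : Y), t • y = ρ (fun _ => t) y := fun _ _ => rfl
  have : ContinuousConstSMul ℝ Y := ⟨fun t => hρc _⟩
  let e : Fin m → Y →ₗ[ℝ] Y := fun i =>
    { toFun := ρ (Pi.single i 1)
      map_add' := map_add _
      map_smul' := fun t y => by
        rw [RingHom.id_apply, hsmul, hsmul, hmul, hmul, mul_comm] }
  have he : ∀ i y, e i y = ρ (Pi.single i 1) y := fun _ _ => rfl
  refine card_le_cover e (fun i => hρc _) (fun i y => ?_) (fun i j y hij => ?_) (fun i => ?_)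
    hWc hW hWs g hcov
  · rw [he, he, hmul]
    congr 2
    funext k
    by_cases hk : k = i
    · subst hk
      simp
    · simp [Pi.single_eq_of_ne hk]
  · rw [he, he, hmul]
    have : (Pi.single i 1 * Pi.single j 1 : Fin m → ℝ) = 0 := by
      funext k
      by_cases hk : k = i
      · subst hk
        simp [Pi.single_eq_of_ne hij]
      · simp [Pi.single_eq_of_ne hk]
    rw [this, hzero]
  · refine ⟨ι 1, fun h => ?_⟩
    rw [he, hρ, mul_one, ← map_zero ι] at h
    have := congrFun (hinj h) i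
    simp at this

/-- the `m`-th power of the identity component of the real affine group -/
def AxB (m : ℕ) : Type := (Fin m → ℝ) × (Fin m → ℝ)

namespace AxB

variable {m : ℕ}

instance : TopologicalSpace (AxB m) := inferInstanceAs (TopologicalSpace ((Fin m → ℝ) × (Fin m → ℝ)))
instance : T2Space (AxB m) := inferInstanceAs (T2Space ((Fin m → ℝ) × (Fin m → ℝ)))
instance : LocallyCompactSpace (AxB m) :=
  inferInstanceAs (LocallyCompactSpace ((Fin m → ℝ) × (Fin m → ℝ)))
instance : SecondCountableTopology (AxB m) :=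
  inferInstanceAs (SecondCountableTopology ((Fin m → ℝ) × (Fin m → ℝ)))
instance : ConnectedSpace (AxB m) :=
  inferInstanceAs (ConnectedSpace ((Fin m → ℝ) × (Fin m → ℝ)))

/-- constructor -/
def mk (a b : Fin m → ℝ) : AxB m := (a, b)

/-- logarithm of the dilation -/
def dil (p : AxB m) : Fin m → ℝ := Prod.fst p

/-- translation -/
def tr (p : AxB m) : Fin m → ℝ := Prod.snd p

@[simp] lemma dil_mk (a b : Fin m → ℝ) : (mk a b).dil = a := rfl
@[simp] lemma tr_mk (a b : Fin m → ℝ) : (mk a b).tr = b := rfl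

lemma ext' {p q : AxB m} (h1 : ∀ i, p.dil i = q.dil i) (h2 : ∀ i, p.tr i = q.tr i) : p = q :=
  Prod.ext (funext h1) (funext h2)

noncomputable instance : Mul (AxB m) :=
  ⟨fun p q => mk (fun i => p.dil i + q.dil i) (fun i => p.tr i + Real.exp (p.dil i) * q.tr i)⟩

instance : One (AxB m) := ⟨mk 0 0⟩

noncomputable instance : Inv (AxB m) :=
  ⟨fun p => mk (fun i => -p.dil i) (fun i => -(Real.exp (-p.dil i) * p.tr i))⟩

@[simp] lemma dil_mul (p q : AxB m) (i : Fin m) : (p * q).dil i = p.dil i + q.dil i := rfl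
@[simp] lemma tr_mul (p q : AxB m) (i : Fin m) :
    (p * q).tr i = p.tr i + Real.exp (p.dil i) * q.tr i := rfl
@[simp] lemma dil_one (i : Fin m) : (1 : AxB m).dil i = 0 := rfl
@[simp] lemma tr_one (i : Fin m) : (1 : AxB m).tr i = 0 := rfl
@[simp] lemma dil_inv (p : AxB m) (i : Fin m) : (p⁻¹).dil i = -p.dil i := rfl
@[simp] lemma tr_inv (p : AxB m) (i : Fin m) :
    (p⁻¹).tr i = -(Real.exp (-p.dil i) * p.tr i) := rfl

noncomputable instance : Group (AxB m) :=
  Group.ofLeftAxioms
    (fun p q r => ext' (fun i => by simp [add_assoc])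
      (fun i => by simp only [tr_mul, dil_mul, Real.exp_add]; ring))
    (fun p => ext' (fun i => by simp) (fun i => by simp))
    (fun p => ext' (fun i => by simp) (fun i => by simp))

lemma continuous_dil : Continuous (dil : AxB m → Fin m → ℝ) := continuous_fst
lemma continuous_tr : Continuous (tr : AxB m → Fin m → ℝ) := continuous_snd

lemma continuous_of {X : Type*} [TopologicalSpace X] {f : X → AxB m}
    (h1 : ∀ i, Continuous fun x => (f x).dil i) (h2 : ∀ i, Continuous fun x => (f x).tr i) :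
    Continuous f :=
  (continuous_pi h1).prodMk (continuous_pi h2)

instance : IsTopologicalGroup (AxB m) where
  continuous_mul := by
    have hd := continuous_dil (m := m)
    have ht := continuous_tr (m := m)
    refine continuous_of (fun i => ?_) (fun i => ?_)
    · simp only [dil_mul]
      fun_prop
    · simp only [tr_mul]
      fun_prop
  continuous_inv := by
    have hd := continuous_dil (m := m)
    have ht := continuous_tr (m := m)
    refine continuous_of (fun i => ?_) (fun i => ?_)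
    · simp only [dil_inv]
      fun_prop
    · simp only [tr_inv]
      fun_prop

/-- the translation subgroup -/
def transl : Multiplicative (Fin m → ℝ) →* AxB m where
  toFun x := mk 0 x.toAdd
  map_one' := rfl
  map_mul' x y := ext' (fun i => by simp) (fun i => by simp)

lemma conj_transl (a : Fin m → ℝ) (ha : ∀ i, 0 < a i) (x : Fin m → ℝ) :
    mk (fun i => Real.log (a i)) 0 * transl (Multiplicative.ofAdd x) *
      (mk (fun i => Real.log (a i)) 0)⁻¹ = transl (Multiplicative.ofAdd (a * x)) :=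
  ext' (fun i => by simp [transl]) (fun i => by simp [transl, Real.exp_log (ha i)])

lemma transl_injective : Function.Injective (transl : Multiplicative (Fin m → ℝ) → AxB m) :=
  fun _ _ h => congrArg tr h

end AxB

open Pointwise in
theorem exists_bound (S : Type*) [Group S] [TopologicalSpace S] [IsTopologicalGroup S]
    [LocallyCompactSpace S] [T2Space S] [SecondCountableTopology S] :
    ∃ C : ℕ, ∀ (m : ℕ) (f : AxB m →* S), Function.Injective f → m ≤ C := by
  classical
  obtain ⟨V0, hV0c, hV0⟩ := exists_compact_mem_nhds (1 : S)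
  set V : Set S := V0 ∩ V0⁻¹ with hV
  have hVc : IsCompact V := hV0c.inter hV0c.inv
  have hVn : V ∈ 𝓝 (1 : S) := inter_mem hV0 (inv_mem_nhds_one S hV0)
  have hVs : ∀ v ∈ V, v⁻¹ ∈ V := fun v hv => ⟨hv.2, by simpa using hv.1⟩
  have hV1 : (1 : S) ∈ V := mem_of_mem_nhds hVn
  have h4 : IsCompact ((V * V) * (V * V)) := (hVc.mul hVc).mul (hVc.mul hVc)
  obtain ⟨t, -, ht⟩ := h4.elim_nhds_subcover (fun s => (fun x => s⁻¹ * x) ⁻¹' V) (fun s _ => by
    apply ContinuousAt.preimage_mem_nhds (by fun_prop)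
    simpa using hVn)
  refine ⟨t.card, fun m f hf => ?_⟩
  let X : Subgroup S := (f.comp AxB.transl).range
  have hX : ∀ x y : X, x * y = y * x := by
    rintro ⟨_, x, rfl⟩ ⟨_, y, rfl⟩
    apply Subtype.ext
    change (f.comp AxB.transl) x * (f.comp AxB.transl) y =
      (f.comp AxB.transl) y * (f.comp AxB.transl) x
    rw [← map_mul, ← map_mul, mul_comm]
  let Y : Subgroup S := X.topologicalClosure
  let _ : CommGroup Y := X.commGroupTopologicalClosure hX
  have hYcl : IsClosed (Y : Set S) := X.isClosed_topologicalClosure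
  have hemb : IsClosedEmbedding ((↑) : Y → S) := hYcl.isClosedEmbedding_subtypeVal
  have : SecondCountableTopology (Additive Y) :=
    (inferInstance : SecondCountableTopology (Y : Set S))
  have : T2Space (Additive Y) := (inferInstance : T2Space (Y : Set S))
  have : IsTopologicalGroup Y := inferInstance
  have : IsTopologicalAddGroup (Additive Y) := inferInstance
  let ι0 : Multiplicative (Fin m → ℝ) →* Y :=
    (f.comp AxB.transl).codRestrict Y fun x => X.le_topologicalClosure ⟨x, rfl⟩
  let ι : (Fin m → ℝ) →+ Additive Y := MonoidHom.toAdditiveRight ι0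
  have hι : ∀ x, ((ι x).toMul : S) = f (AxB.transl (Multiplicative.ofAdd x)) := fun _ => rfl
  have hinj : Function.Injective ι := by
    intro x y h
    have h1 := congrArg (fun z : Additive Y => (z.toMul : S)) h
    simp only [hι] at h1
    exact Multiplicative.ofAdd.injective (AxB.transl_injective (hf h1))
  have hdense : DenseRange ι := by
    intro y
    have h1 : (y.toMul : S) ∈ closure (X : Set S) := (y.toMul).2
    have h2 : (X : Set S) = ((↑) : Y → S) '' (range fun x => (ι x).toMul) := by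
      ext z
      constructor
      · rintro ⟨x, rfl⟩
        exact ⟨_, ⟨x.toAdd, rfl⟩, rfl⟩
      · rintro ⟨_, ⟨x, rfl⟩, rfl⟩
        exact ⟨Multiplicative.ofAdd x, rfl⟩
    rw [h2] at h1
    have h3 : y.toMul ∈ closure (range fun x => (ι x).toMul) := by
      rw [hemb.isEmbedding.closure_eq_preimage_closure_image]
      exact h1
    exact h3
  let W : Set (Additive Y) := {y | (y.toMul : S) ∈ V * V}
  have hWc : IsCompact W := hemb.isCompact_preimage (hVc.mul hVc)
  have hW : W ∈ 𝓝 (0 : Additive Y) := by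
    have h1 : V * V ∈ 𝓝 (1 : S) := mem_of_superset hVn (subset_mul_left V hV1)
    exact hemb.continuous.continuousAt.preimage_mem_nhds (x := (1 : Y)) h1
  have hWs : ∀ a ∈ W, -a ∈ W := by
    rintro a ⟨u, hu, v, hv, huv⟩
    refine ⟨v⁻¹, hVs v hv, u⁻¹, hVs u hu, ?_⟩
    simp only at huv ⊢
    rw [← mul_inv_rev, huv]
    rfl
  let eq := t.equivFin
  let g : Fin t.card → Additive Y := fun j =>
    if h : ∃ y : Y, ((eq.symm j : S))⁻¹ * (y : S) ∈ V then Additive.ofMul h.choose else 0
  refine card_le_of_dense ι hinj hdense (fun a ha => ?_) hWc hW hWs g (fun a ha b hb => ?_)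
  · set s : S := f (AxB.mk (fun i => Real.log (a i)) 0) with hs
    have hmapsX : MapsTo (fun z => s * z * s⁻¹) (X : Set S) (X : Set S) := by
      rintro _ ⟨x, rfl⟩
      refine ⟨Multiplicative.ofAdd (a * x.toAdd), ?_⟩
      simp only [MonoidHom.comp_apply]
      rw [← AxB.conj_transl a ha, map_mul, map_mul, map_inv]
      rfl
    have hmapsY : ∀ z ∈ Y, s * z * s⁻¹ ∈ Y := fun z hz => hmapsX.closure (by fun_prop) hz
    let c0 : Y →* Y := ((MulAut.conj s).toMonoidHom.comp Y.subtype).codRestrict Y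
      fun z => hmapsY z z.2
    refine ⟨MonoidHom.toAdditive c0, ?_, fun x => ?_⟩
    · have : Continuous c0 := by
        refine hemb.isEmbedding.continuous_iff.mpr ?_
        have h1 : Continuous fun z : Y => s * (z : S) * s⁻¹ := by fun_prop
        exact h1
      exact this
    · apply Additive.toMul.injective
      apply Subtype.ext
      rw [hι, ← AxB.conj_transl a ha, map_mul, map_mul, map_inv]
      rfl
  · have hab : ((a + b).toMul : S) ∈ (V * V) * (V * V) := mul_mem_mul ha hb
    obtain ⟨s, hs, hsv⟩ := mem_iUnion₂.mp (ht hab)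
    have hex : ∃ y : Y, ((eq.symm (eq ⟨s, hs⟩) : S))⁻¹ * (y : S) ∈ V :=
      ⟨(a + b).toMul, by simpa using hsv⟩
    refine ⟨eq ⟨s, hs⟩, -g (eq ⟨s, hs⟩) + (a + b), ?_, by abel⟩
    have hg : g (eq ⟨s, hs⟩) = Additive.ofMul hex.choose := dif_pos hex
    have hch := hex.choose_spec
    rw [hg]
    refine ⟨_, hVs _ hch, _, hsv, ?_⟩
    simp only [Equiv.symm_apply_apply, mul_inv_rev, inv_inv]
    rw [mul_assoc, mul_inv_cancel_left]
    rfl

end Pool.Agent.Work.MP_15a5ff_al
end
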