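import Mathlib
import Pool.Agent.Work.MP_15a5ff_al.Main

/-!
The powers of the real affine group inside `SL` and `PSL`; topology of `SL(n, 𝕜)` and `PSL(n, 𝕜)`.
-/

set_option autoImplicit false

open Matrix Topology
open scoped MatrixGroups commutatorElement

namespace Pool.Agent.Work.MP_15a5ff_al

variable {𝕜 : Type*} [RCLike 𝕜] {m : ℕ}

/-- block matrix of an element of `AxB m` -/
noncomputable def blk (𝕜 : Type*) [RCLike 𝕜] (p : AxB m) :
    Matrix (Fin m ⊕ Fin 2) (Fin m ⊕ Fin 2) 𝕜 :=
  fromBlocks (diagonal fun i => ((Real.exp (p.dil i) : ℝ) : 𝕜))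
    (of fun i j => if j = 0 then ((p.tr i : ℝ) : 𝕜) else 0) 0
    (diagonal fun j => if j = 0 then 1 else ((Real.exp (-∑ i, p.dil i) : ℝ) : 𝕜))

lemma det_blk (p : AxB m) : (blk 𝕜 p).det = 1 := by
  rw [blk, det_fromBlocks_zero₂₁, det_diagonal, det_diagonal, Fin.prod_univ_two]
  simp only [if_true, one_ne_zero, if_false, one_mul]
  rw [← RCLike.ofReal_prod, ← Real.exp_sum, ← RCLike.ofReal_mul, ← Real.exp_add]
  simp

lemma blk_one : blk 𝕜 (1 : AxB m) = 1 := by
  rw [blk, ← fromBlocks_one]
  congr 1
  · simp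
  · ext i j; simp
  · simp

lemma blk_mul (p q : AxB m) : blk 𝕜 (p * q) = blk 𝕜 p * blk 𝕜 q := by
  rw [blk, blk, blk, fromBlocks_multiply]
  congr 1
  · simp [diagonal_mul_diagonal, Real.exp_add]
  · ext i j
    simp only [Matrix.add_apply, diagonal_mul, mul_diagonal, of_apply, AxB.tr_mul]
    by_cases hj : j = 0
    · simp only [hj, if_true]; push_cast; ring
    · simp [hj]
  · simp
  · simp only [Matrix.zero_mul, zero_add, diagonal_mul_diagonal, AxB.dil_mul]
    congr 1
    funext j
    split_ifs
    · simp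
    · rw [Finset.sum_add_distrib, neg_add, Real.exp_add, RCLike.ofReal_mul]

/-- the embedding in `SL(n, 𝕜)` -/
noncomputable def toSL {n : ℕ} (e : Fin m ⊕ Fin 2 ≃ Fin n) : AxB m →* SL(n, 𝕜) where
  toFun p := ⟨reindex e e (blk 𝕜 p), by rw [det_reindex_self, det_blk]⟩
  map_one' := Subtype.ext (by simp [blk_one])
  map_mul' p q := Subtype.ext (by
    change reindex e e (blk 𝕜 (p * q)) = reindex e e (blk 𝕜 p) * reindex e e (blk 𝕜 q)
    simp [blk_mul, submatrix_mul_equiv])

lemma eq_one_of_mem_center {n : ℕ} (e : Fin m ⊕ Fin 2 ≃ Fin n) (p : AxB m)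
    (h : toSL (𝕜 := 𝕜) e p ∈ Subgroup.center SL(n, 𝕜)) : p = 1 := by
  obtain ⟨r, -, hr⟩ := Matrix.SpecialLinearGroup.mem_center_iff.1 h
  have key : ∀ a b, (scalar (Fin n) r) (e a) (e b) = blk 𝕜 p a b := fun a b => by
    rw [hr]
    change reindex e e (blk 𝕜 p) (e a) (e b) = _
    simp
  have hr1 : r = 1 := by simpa [blk] using key (Sum.inr 0) (Sum.inr 0)
  refine AxB.ext' (fun i => ?_) (fun i => ?_)
  · have := key (Sum.inl i) (Sum.inl i)
    simp only [hr1, scalar_apply, diagonal_apply_eq, blk, fromBlocks_apply₁₁] at this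
    have h2 : Real.exp (p.dil i) = 1 := by exact_mod_cast this.symm
    simpa using h2
  · have := key (Sum.inl i) (Sum.inr 0)
    rw [scalar_apply, diagonal_apply_ne _ (by simp)] at this
    simp only [blk, fromBlocks_apply₁₂, of_apply, if_true] at this
    have h2 : p.tr i = 0 := by exact_mod_cast this.symm
    simpa using h2

lemma toSL_injective {n : ℕ} (e : Fin m ⊕ Fin 2 ≃ Fin n) :
    Function.Injective (toSL (𝕜 := 𝕜) e) :=
  (injective_iff_map_eq_one _).2 fun p hp =>
    eq_one_of_mem_center e p (hp ▸ Subgroup.one_mem _)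

lemma toPSL_injective {n : ℕ} (e : Fin m ⊕ Fin 2 ≃ Fin n) :
    Function.Injective ((QuotientGroup.mk' (Subgroup.center SL(n, 𝕜))).comp
      (toSL (𝕜 := 𝕜) e)) :=
  (injective_iff_map_eq_one _).2 fun p hp =>
    eq_one_of_mem_center e p ((QuotientGroup.eq_one_iff _).1 hp)

section topo

variable {ι : Type*} [Fintype ι] [DecidableEq ι]

lemma diag2n_decompose {F : Type*} [Field F] {i j : ι} (hij : i ≠ j) (a : F) (ha : a ≠ 0) :
    SpecialLinearGroup.diag2n hij a ha = SpecialLinearGroup.transvection hij a *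
      SpecialLinearGroup.transvection hij.symm (- a⁻¹) *
      SpecialLinearGroup.transvection hij a *
      SpecialLinearGroup.transvection hij (-1) *
      SpecialLinearGroup.transvection hij.symm 1 *
      SpecialLinearGroup.transvection hij (-1) := by
  have h1 : (SpecialLinearGroup.diag2n hij a ha).1 =
      1 + single i i (a - 1) + single j j (a⁻¹ - 1) := by
    rw [SpecialLinearGroup.diag2n_coe]
    ext k l
    by_cases hkl : k = l
    · subst hkl
      by_cases hi : k = i
      · subst hi
        simp [hij.symm]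
      · by_cases hj : k = j
        · subst hj
          simp [hi, hij]
        · simp [hi, hj, Ne.symm hi, Ne.symm hj]
    · have h3 : ¬ (i = k ∧ i = l) := fun h => hkl (h.1.symm.trans h.2)
      have h4 : ¬ (j = k ∧ j = l) := fun h => hkl (h.1.symm.trans h.2)
      simp [hkl, h3, h4]
  ext k l
  rw [h1]
  simp only [Matrix.SpecialLinearGroup.coe_mul, SpecialLinearGroup.transvection_coe, mul_add, add_mul,
    Matrix.one_mul, Matrix.mul_one, single_mul_single_same,
    single_mul_single_of_ne _ _ _ _ hij, single_mul_single_of_ne _ _ _ _ hij.symm,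
    add_zero]
  simp only [Matrix.add_apply, single_apply]
  split_ifs <;> (field_simp; ring)

lemma connectedSpace_SL : ConnectedSpace (SpecialLinearGroup ι 𝕜) := by
  have key : ∀ M : SpecialLinearGroup ι 𝕜,
      M ∈ Subgroup.connectedComponentOfOne (SpecialLinearGroup ι 𝕜) := by
    intro M
    rcases subsingleton_or_nontrivial ι with hι | hι
    · rw [Subsingleton.elim M 1]; exact Subgroup.one_mem _
    have ht : ∀ (i j : ι) (hij : i ≠ j) (a : 𝕜), SpecialLinearGroup.transvection hij a ∈
        Subgroup.connectedComponentOfOne (SpecialLinearGroup ι 𝕜) := by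
      intro i j hij a
      have hc : Continuous fun b : 𝕜 => SpecialLinearGroup.transvection hij b := by
        refine continuous_induced_rng.2 ?_
        refine continuous_pi fun k => continuous_pi fun l => ?_
        simp only [Function.comp, SpecialLinearGroup.transvection_coe, Matrix.add_apply,
          single_apply]
        split_ifs <;> fun_prop
      exact (isConnected_range hc).subset_connectedComponent
        ⟨0, SpecialLinearGroup.transvection_coeff_zero hij⟩ ⟨a, rfl⟩
    refine SpecialLinearGroup.diagonal_transvection_induction' _ M (fun i j hij c hc => ?_) ht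
      (fun A B => Subgroup.mul_mem _)
    rw [diag2n_decompose]
    exact mul_mem (mul_mem (mul_mem (mul_mem (mul_mem (ht _ _ _ _) (ht _ _ _ _)) (ht _ _ _ _))
      (ht _ _ _ _)) (ht _ _ _ _)) (ht _ _ _ _)
  rw [connectedSpace_iff_connectedComponent]
  exact ⟨1, Set.eq_univ_of_forall key⟩

lemma t2Space_SL : T2Space (SpecialLinearGroup ι 𝕜) :=
  SpecialLinearGroup.isClosedEmbedding_val.isEmbedding.t2Space

lemma locallyCompactSpace_SL : LocallyCompactSpace (SpecialLinearGroup ι 𝕜) := by
  have : ProperSpace 𝕜 := FiniteDimensional.proper_rclike 𝕜 𝕜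
  have : LocallyCompactSpace (Matrix ι ι 𝕜) :=
    inferInstanceAs (LocallyCompactSpace (ι → ι → 𝕜))
  exact SpecialLinearGroup.isClosedEmbedding_val.locallyCompactSpace

lemma secondCountableTopology_SL : SecondCountableTopology (SpecialLinearGroup ι 𝕜) := by
  have : ProperSpace 𝕜 := FiniteDimensional.proper_rclike 𝕜 𝕜
  have : SecondCountableTopology (Matrix ι ι 𝕜) :=
    inferInstanceAs (SecondCountableTopology (ι → ι → 𝕜))
  exact SpecialLinearGroup.isClosedEmbedding_val.isEmbedding.secondCountableTopology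

lemma isClosed_center {G : Type*} [Group G] [TopologicalSpace G] [IsTopologicalGroup G]
    [T2Space G] : IsClosed (Subgroup.center G : Set G) := by
  have : (Subgroup.center G : Set G) = ⋂ g : G, {z | g * z = z * g} := by
    ext z; simp [Subgroup.mem_center_iff]
  rw [this]
  exact isClosed_iInter fun g => isClosed_eq (by fun_prop) (by fun_prop)

end topo

lemma derivedSeries_two (m : ℕ) : derivedSeries (AxB m) 2 = ⊥ := by
  let K : Subgroup (AxB m) := (AxB.transl (m := m)).range
  have h1 : derivedSeries (AxB m) 1 ≤ K := by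
    rw [derivedSeries_one, commutator_def, Subgroup.commutator_le]
    intro p _ q _
    refine ⟨Multiplicative.ofAdd (AxB.tr ⁅p, q⁆), AxB.ext' (fun i => ?_) (fun i => rfl)⟩
    simp [AxB.transl, commutatorElement_def]
  rw [eq_bot_iff, show (2 : ℕ) = 1 + 1 from rfl, derivedSeries_succ, Subgroup.commutator_le]
  intro p hp q hq
  obtain ⟨x, rfl⟩ := h1 hp
  obtain ⟨y, rfl⟩ := h1 hq
  rw [← map_commutatorElement, commutatorElement_eq_one_iff_mul_comm.2 (mul_comm _ _), map_one]
  exact Subgroup.one_mem _

end Pool.Agent.Work.MP_15a5ff_al
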